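import Pool.Agent.Helper14.TT.StG

/-!
# Project TT, module CntD: counting the index set for the composite conductors
-/

set_option autoImplicit false

namespace Pool.Agent.Helper33.TT

open Pool.Agent.Helper14.TT Pool.Agent.Helper14.CV

private theorem jac_two {D E : ℕ} (hD : D % 2 = 1) (h : D % 8 = E % 8) :
    jacobiSym 2 D = jacobiSym 2 E := by
  have hE : E % 2 = 1 := by omega
  rw [jacobiSym.at_two (Nat.odd_iff.2 hD), jacobiSym.at_two (Nat.odd_iff.2 hE),
    ZMod.χ₈_nat_eq_if_mod_eight, ZMod.χ₈_nat_eq_if_mod_eight, hD, hE, h]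

private theorem DT_eq {D E : ℕ} (hD : D % 2 = 1) (h : D % 8 = E % 8) (n : ℕ) :
    DT D n = DT E n := by
  unfold DT
  refine Finset.sum_congr rfl fun m _ => ?_
  unfold wT
  rw [jac_two hD h]

private theorem cases_Okd {D : ℕ} (h : Okd D) :
    ∃ l : ℕ, Okl l ∧ sh l = shd D ∧ ∀ n, DT l n = DT D n := by
  have h38 : D % 8 = 3 ∨ D % 8 = 7 := by
    rcases h with ⟨-, h⟩ | h | ⟨l, -, hl, h⟩ <;> omega
  rcases h38 with h3 | h7
  · refine ⟨3, ⟨by norm_num, Or.inl rfl⟩, ?_, fun n => (DT_eq (by omega) (by omega) n).symm⟩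
    unfold sh shd
    rw [if_neg (by omega), if_neg (by omega)]
  · refine ⟨7, ⟨by norm_num, Or.inr rfl⟩, ?_, fun n => (DT_eq (by omega) (by omega) n).symm⟩
    unfold sh shd
    rw [if_pos rfl, if_pos h7]

/-- CNTD. -/
theorem hCntD (hCnt : CntT) : CntD := by
  constructor
  · intro D k hD hk
    obtain ⟨l, hl, hs, hDT⟩ := cases_Okd hD
    rw [← hs, ← hDT]
    exact hCnt.1 l k hl hk
  · intro D k hD hk
    obtain ⟨l, hl, hs, hDT⟩ := cases_Okd hD
    rw [← hs, ← hDT]
    exact hCnt.2 l k hl hk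

end Pool.Agent.Helper33.TT
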